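import Pool.Agent.W770.PC.CutStms

/-! Project PC: polyR_thm, polynomial chirps on convex polygons. -/

set_option autoImplicit false

open MeasureTheory Set Filter Topology
open scoped ENNReal NNReal

namespace Pool.Agent.W239.PC

open Pool.Agent.W770.PC

theorem pf_cont (P : MvPolynomial (Fin 2) ℝ) : Continuous (pf P) := by
  unfold pf
  have h : Continuous (fun y : ℝ × ℝ => (![y.1, y.2] : Fin 2 → ℝ)) := by
    refine continuous_pi fun i => ?_
    fin_cases i
    · exact continuous_fst
    · exact continuous_snd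
  exact (MvPolynomial.continuous_eval P).comp h

theorem ee_cont : Continuous ee := by
  unfold ee
  fun_prop

theorem ee_norm (x : ℝ) : ‖ee x‖ = 1 := by
  unfold ee
  exact Complex.norm_exp_ofReal_mul_I x

theorem box_meas (w : ℝ × ℝ) (r : ℝ) : MeasurableSet (box w r) :=
  measurableSet_Icc.prod measurableSet_Icc

theorem hp_meas (ω : ℝ × ℝ) (c : ℝ) : MeasurableSet (hp ω c) := by
  have h : IsClosed (hp ω c) := by
    unfold hp
    exact isClosed_le continuous_const (by fun_prop)
  exact h.measurableSet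

theorem box_sub (w : ℝ × ℝ) (r : ℝ) : box w r ⊆ box 0 (|w.1| + |w.2| + r) := by
  rintro y ⟨h1, h2⟩
  have a1 := abs_le.1 (le_refl |w.1|)
  have a2 := abs_le.1 (le_refl |w.2|)
  have a3 := abs_nonneg w.1
  have a4 := abs_nonneg w.2
  refine ⟨⟨?_, ?_⟩, ?_, ?_⟩
  · have := h1.1; simp only [Prod.fst_zero]; linarith
  · have := h1.2; simp only [Prod.fst_zero]; linarith
  · have := h2.1; simp only [Prod.snd_zero]; linarith
  · have := h2.2; simp only [Prod.snd_zero]; linarith

theorem polyR_thm (h1 : S_scale) (h2 : S_cutR) : S_polyR := by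
  intro p D k hp3
  obtain ⟨K0, hK0, hS⟩ := h1 p D hp3
  obtain ⟨C, hC, hcut⟩ := h2 p (by linarith)
  refine ⟨K0 * 2 ^ (2 - 4 / p) * C ^ k, by positivity, ?_⟩
  intro P hP w r hr
  induction k with
  | zero =>
    intro ω c _
    have h := hS P hP (w.1 - r) (w.1 + r) (w.2 - r) (w.2 + r) (2 * r) (by positivity)
      (by linarith) (by linarith)
    have e1 : (box w r ∩ ⋂ j : Fin 0, Pool.Agent.W770.PC.hp (ω j) (c j)) =
        Icc (w.1 - r) (w.1 + r) ×ˢ Icc (w.2 - r) (w.2 + r) := by
      rw [Set.iInter_of_empty, Set.inter_univ]; rfl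
    rw [e1]
    refine h.trans (ENNReal.ofReal_le_ofReal (le_of_eq ?_))
    rw [Real.mul_rpow (by norm_num) hr.le, pow_zero]
    ring
  | succ k ih =>
    intro ω c hω
    have h := ih (fun j => ω j.castSucc) (fun j => c j.castSucc) (fun j => hω j.castSucc)
    obtain ⟨A, hA⟩ : ∃ A : Set (ℝ × ℝ), A = box w r ∩
      ⋂ j : Fin k, Pool.Agent.W770.PC.hp (ω j.castSucc) (c j.castSucc) := ⟨_, rfl⟩
    rw [← hA] at h
    have hAm : MeasurableSet A := by
      rw [hA]
      exact (box_meas w r).inter (MeasurableSet.iInter fun j => hp_meas _ _)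
    have hAb : A ⊆ box 0 (|w.1| + |w.2| + r) := by
      rw [hA]
      exact Set.inter_subset_left.trans (box_sub w r)
    have e1 : (box w r ∩ ⋂ j : Fin (k + 1), Pool.Agent.W770.PC.hp (ω j) (c j)) =
        Pool.Agent.W770.PC.hp (ω (Fin.last k)) (c (Fin.last k)) ∩ A := by
      rw [hA]
      ext y
      simp only [Set.mem_inter_iff, Set.mem_iInter, Fin.forall_fin_succ']
      tauto
    rw [e1, ← Set.indicator_indicator]
    have hc := hcut (fun y => y.1 ^ 2 + y.2 ^ 2) (A.indicator (fun y => ee (pf P y)))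
      (|w.1| + |w.2| + r) 1 (by fun_prop)
      (((ee_cont.comp (pf_cont P)).measurable).indicator hAm)
      (fun y => by
        by_cases hy : y ∈ A
        · rw [Set.indicator_of_mem hy, ee_norm]
        · rw [Set.indicator_of_notMem hy, norm_zero]; norm_num)
      (fun y hy => Set.indicator_of_notMem (fun h' => hy (hAb h')) _)
      (ω (Fin.last k)) (c (Fin.last k)) (hω _)
    refine hc.trans ?_
    calc _ ≤ ENNReal.ofReal C * ENNReal.ofReal (K0 * 2 ^ (2 - 4 / p) * C ^ k * r ^ (2 - 4 / p)) :=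
          mul_le_mul_right h _
      _ = ENNReal.ofReal (K0 * 2 ^ (2 - 4 / p) * C ^ (k + 1) * r ^ (2 - 4 / p)) := by
          rw [← ENNReal.ofReal_mul hC]
          congr 1
          rw [pow_succ]
          ring

end Pool.Agent.W239.PC
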